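import Mathlib

/-!
# EP, module OSM: lattice points in boxes of a monogenic order
-/

set_option autoImplicit false

namespace Pool.Agent.Helper72.EP

open Module

variable {R : Type*} [CommRing R] [IsDomain R] {D : ℕ}

/-- All coordinates are at most `A` in absolute value. -/
def Bd (b : Basis (Fin D) ℤ R) (v : R) (A : ℤ) : Prop := ∀ i, |b.repr v i| ≤ A

/-- The box of integer vectors. -/
noncomputable def Box (D X : ℕ) : Finset (Fin D → ℤ) := Fintype.piFinset fun _ => Finset.Icc (-(X : ℤ)) X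

theorem mem_Box {X : ℕ} {a : Fin D → ℤ} : a ∈ Box D X ↔ ∀ i, |a i| ≤ X := by
  simp [Box, Fintype.mem_piFinset, abs_le]

theorem card_Box (X : ℕ) : (Box D X).card = (2 * X + 1) ^ D := by
  simp only [Box, Fintype.card_piFinset, Int.card_Icc, Finset.prod_const, Finset.card_univ,
    Fintype.card_fin]
  congr 1
  omega

variable (b : Basis (Fin D) ℤ R) (x : R) (K : ℤ)

theorem Bd_pow (_hK : 0 ≤ K) (hx : ∀ v A, Bd b v A → Bd b (x * v) (K * A)) (v : R) (A : ℤ)
    (hv : Bd b v A) (k : ℕ) : Bd b (x ^ k * v) (K ^ k * A) := by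
  induction k with
  | zero => simpa using hv
  | succ k ih =>
    have := hx _ _ ih
    rw [pow_succ' x, pow_succ' K, mul_assoc, mul_assoc]
    exact this

theorem norm_le (hK : 1 ≤ K) (hx : ∀ v A, Bd b v A → Bd b (x * v) (K * A))
    (hb : ∀ k, b k = x ^ (k : ℕ)) (v : R) (A : ℤ) (hA : 0 ≤ A) (hv : Bd b v A) :
    |Algebra.norm ℤ v| ≤ (D.factorial : ℤ) * (K ^ D * A) ^ D := by
  classical
  rw [Algebra.norm_eq_matrix_det b]
  have h := Matrix.det_le (A := Algebra.leftMulMatrix b v)
    (abv := (AbsoluteValue.abs : AbsoluteValue ℤ ℤ)) (x := K ^ D * A) (by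
      intro i j
      rw [Algebra.leftMulMatrix_eq_repr_mul, hb j, mul_comm]
      have h1 := Bd_pow b x K (by omega) hx v A hv j i
      refine le_trans h1 ?_
      refine mul_le_mul_of_nonneg_right ?_ hA
      exact pow_le_pow_right₀ hK j.2.le)
  simpa [nsmul_eq_mul] using h

/-- Short vectors by the pigeonhole principle. -/
theorem exists_short {p : ℕ} [Fact p.Prime] (φ : R →+* ZMod p) (m : ℕ) (hm : p < (m + 1) ^ D) :
    ∃ β : R, β ≠ 0 ∧ φ β = 0 ∧ Bd b β m := by
  classical
  let S : Finset (Fin D → ℤ) := Fintype.piFinset fun _ => Finset.Icc (0 : ℤ) m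
  have hS : S.card = (m + 1) ^ D := by
    simp [S, Fintype.card_piFinset]
  obtain ⟨a, ha, c, hc, hne, heq⟩ := Finset.exists_ne_map_eq_of_card_lt_of_maps_to
    (s := S) (t := (Finset.univ : Finset (ZMod p))) (f := fun a => φ (b.equivFun.symm a))
    (by rw [hS, Finset.card_univ, ZMod.card]; exact hm) (fun _ _ => Finset.mem_coe.2 (Finset.mem_univ _))
  refine ⟨b.equivFun.symm a - b.equivFun.symm c, ?_, ?_, ?_⟩
  · intro h
    exact hne (b.equivFun.symm.injective (sub_eq_zero.1 h))
  · rw [map_sub, sub_eq_zero]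
    exact heq
  · intro i
    rw [← map_sub, ← b.equivFun_apply, LinearEquiv.apply_symm_apply]
    have h1 := Finset.mem_Icc.1 (Fintype.mem_piFinset.1 ha i)
    have h2 := Finset.mem_Icc.1 (Fintype.mem_piFinset.1 hc i)
    rw [Pi.sub_apply, abs_le]
    constructor <;> omega

theorem exists_int_multiple [Module.Free ℤ R] [Module.Finite ℤ R] (β : R) (hβ : β ≠ 0) :
    ∃ (N : ℤ) (w : R), 0 < N ∧ w * β = (N : R) := by
  have h := Ideal.comap_ne_bot_of_integral_mem (R := ℤ) (I := Ideal.span {β}) hβ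
    (Ideal.mem_span_singleton_self β) (Algebra.IsIntegral.isIntegral β)
  obtain ⟨N, hN, hN0⟩ := Submodule.exists_mem_ne_zero_of_ne_bot h
  rw [Ideal.mem_comap] at hN
  obtain ⟨w, hw⟩ := Ideal.mem_span_singleton'.1 hN
  rcases lt_or_gt_of_ne hN0 with h0 | h0
  · refine ⟨-N, -w, by omega, ?_⟩
    rw [neg_mul, hw]
    simp
  · exact ⟨N, w, h0, by rw [hw]; simp⟩

/-- Small representatives of all classes. -/
theorem exists_rep [Module.Free ℤ R] [Module.Finite ℤ R] (hK : 1 ≤ K)
    (hx : ∀ v A, Bd b v A → Bd b (x * v) (K * A))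
    (hb : ∀ k, b k = x ^ (k : ℕ)) {p : ℕ} [Fact p.Prime] (φ : R →+* ZMod p) (m : ℕ)
    (hm : p < (m + 1) ^ D) (v : R) :
    ∃ t : R, φ t = φ v ∧ Bd b t (D * (K ^ D * m)) := by
  classical
  obtain ⟨β, hβ0, hβ, hβm⟩ := exists_short b φ m hm
  obtain ⟨N, w, hN, hw⟩ := exists_int_multiple β hβ0
  -- `N v = (w v) β`
  set u : R := w * v with hu
  have hNv : (N : R) * v = u * β := by rw [hu, ← hw]; ring
  have husum : u = ∑ k, (b.repr u k : R) * x ^ (k : ℕ) := by
    conv_lhs => rw [← b.sum_repr u]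
    refine Finset.sum_congr rfl fun k _ => ?_
    rw [hb k, zsmul_eq_mul]
  let q : Fin D → ℤ := fun k => b.repr u k / N
  let s : Fin D → ℤ := fun k => b.repr u k % N
  have hs0 : ∀ k, 0 ≤ s k := fun k => Int.emod_nonneg _ (by omega)
  have hsN : ∀ k, s k < N := fun k => Int.emod_lt_of_pos _ hN
  have hqs : ∀ k, b.repr u k = N * q k + s k := fun k => (Int.mul_ediv_add_emod _ _).symm
  let t : R := v - ∑ k, (q k : R) * (x ^ (k : ℕ) * β)
  have hNt : (N : R) * t = ∑ k, (s k : R) * (x ^ (k : ℕ) * β) := by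
    simp only [t]
    rw [mul_sub, hNv]
    conv_lhs => rw [husum]
    rw [Finset.sum_mul, Finset.mul_sum, ← Finset.sum_sub_distrib]
    refine Finset.sum_congr rfl fun k _ => ?_
    rw [hqs k]
    push_cast
    ring
  refine ⟨t, ?_, ?_⟩
  · simp only [t]
    rw [map_sub, map_sum]
    have : ∀ k ∈ (Finset.univ : Finset (Fin D)), φ ((q k : R) * (x ^ (k : ℕ) * β)) = 0 := by
      intro k _
      rw [map_mul, map_mul, hβ]
      ring
    rw [Finset.sum_eq_zero this, sub_zero]
  · intro i
    have h1 : N * b.repr t i = ∑ k, s k * b.repr (x ^ (k : ℕ) * β) i := by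
      have h2 : b.repr ((N : R) * t) i =
          b.repr (∑ k, (s k : R) * (x ^ (k : ℕ) * β)) i := by rw [hNt]
      have h3 : (N : R) * t = N • t := by rw [zsmul_eq_mul]
      rw [h3, map_smul, Finsupp.smul_apply, smul_eq_mul] at h2
      rw [h2, map_sum, Finsupp.finset_sum_apply]
      refine Finset.sum_congr rfl fun k _ => ?_
      rw [← zsmul_eq_mul, map_smul, Finsupp.smul_apply, smul_eq_mul]
    have h4 : N * |b.repr t i| ≤ N * (D * (K ^ D * m)) := by
      calc N * |b.repr t i| = |N * b.repr t i| := by rw [abs_mul, abs_of_pos hN]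
        _ = |∑ k, s k * b.repr (x ^ (k : ℕ) * β) i| := by rw [h1]
        _ ≤ ∑ k, |s k * b.repr (x ^ (k : ℕ) * β) i| := Finset.abs_sum_le_sum_abs _ _
        _ ≤ ∑ _k : Fin D, N * (K ^ D * m) := by
          refine Finset.sum_le_sum fun k _ => ?_
          rw [abs_mul, abs_of_nonneg (hs0 k)]
          have h5 := Bd_pow b x K (by omega) hx β m hβm k i
          have h6 : K ^ (k : ℕ) * (m : ℤ) ≤ K ^ D * m :=
            mul_le_mul_of_nonneg_right (pow_le_pow_right₀ hK k.2.le) (by positivity)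
          exact mul_le_mul (hsN k).le (h5.trans h6) (abs_nonneg _) hN.le
        _ = N * (D * (K ^ D * m)) := by
          rw [Finset.sum_const, Finset.card_univ, Fintype.card_fin, nsmul_eq_mul]
          ring
    exact le_of_mul_le_mul_left h4 hN

/-- The number of lattice points of the kernel of a residue map in a box. -/
theorem card_ker [Module.Free ℤ R] [Module.Finite ℤ R] (hK : 1 ≤ K)
    (hx : ∀ v A, Bd b v A → Bd b (x * v) (K * A))
    (hb : ∀ k, b k = x ^ (k : ℕ)) {p : ℕ} [Fact p.Prime] (φ : R →+* ZMod p) (m : ℕ)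
    (hm : p < (m + 1) ^ D) (X T : ℕ) (hT : (D : ℤ) * (K ^ D * m) ≤ T) (hTX : T ≤ X) :
    (2 * (X - T) + 1) ^ D ≤
      p * ((Box D X).filter fun a => φ (b.equivFun.symm a) = 0).card := by
  classical
  have hsurj := ZMod.ringHom_surjective φ
  have ht : ∀ c : ZMod p, ∃ t : R, φ t = c ∧ Bd b t T := by
    intro c
    obtain ⟨v, hv⟩ := hsurj c
    obtain ⟨t, h1, h2⟩ := exists_rep b x K hK hx hb φ m hm v
    exact ⟨t, h1.trans hv, fun i => (h2 i).trans hT⟩
  choose t ht1 ht2 using ht
  rw [← card_Box (D := D) (X - T)]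
  have hcard : p * ((Box D X).filter fun a => φ (b.equivFun.symm a) = 0).card =
      ((Finset.univ : Finset (ZMod p)) ×ˢ
        ((Box D X).filter fun a => φ (b.equivFun.symm a) = 0)).card := by
    rw [Finset.card_product, Finset.card_univ, ZMod.card]
  rw [hcard]
  refine Finset.card_le_card_of_injOn
    (fun a => (φ (b.equivFun.symm a), a - b.equivFun (t (φ (b.equivFun.symm a))))) ?_ ?_
  · intro a ha
    have ha' := mem_Box.1 (Finset.mem_coe.1 ha)
    refine Finset.mem_coe.2 (Finset.mem_product.2 ⟨Finset.mem_univ _, ?_⟩)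
    refine Finset.mem_filter.2 ⟨mem_Box.2 fun i => ?_, ?_⟩
    · have h1 := ha' i
      have h2 := ht2 (φ (b.equivFun.symm a)) i
      change |a i - b.equivFun (t (φ (b.equivFun.symm a))) i| ≤ (X : ℤ)
      rw [b.equivFun_apply]
      have h3 := abs_sub (a i) (b.repr (t (φ (b.equivFun.symm a))) i)
      have h4 : ((X - T : ℕ) : ℤ) = X - T := by omega
      rw [h4] at h1
      linarith
    · change φ (b.equivFun.symm (a - b.equivFun (t (φ (b.equivFun.symm a))))) = 0
      rw [map_sub, LinearEquiv.symm_apply_apply, map_sub, ht1, sub_self]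
  · intro a _ c _ hac
    simp only [Prod.mk.injEq] at hac
    obtain ⟨h1, h2⟩ := hac
    rw [h1] at h2
    exact sub_left_injective h2

end Pool.Agent.Helper72.EP
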