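import Pool.Agent.Helper20.EP.Defs
import Pool.Agent.Helper72.EP.Box

/-!
# EP, module OSM: the order `ℤ[x]/(g)`
-/

set_option autoImplicit false

open Polynomial Module

namespace Pool.Agent.Helper72.EP

open Pool.Agent.Helper20.EP (RootsLE rho)

theorem coeff_le (g : ℤ[X]) (hm : g.Monic) (H : ℝ) (hH : 2 ≤ H) (hr : RootsLE g H) (i : ℕ) :
    |(g.coeff i : ℝ)| ≤ H ^ g.natDegree * 2 ^ g.natDegree := by
  have h := coeff_bdd_of_roots_le (B := H) (d := g.natDegree) (Int.castRingHom ℂ) hm
    (IsAlgClosed.splits _) le_rfl (by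
      intro z hz
      apply hr
      have hz' := (mem_roots'.1 hz).2
      rw [IsRoot.def, eval_map] at hz'
      rw [aeval_def]
      exact hz') i
  rw [coeff_map, max_eq_left (by linarith)] at h
  have h1 : ‖(Int.castRingHom ℂ) (g.coeff i)‖ = |(g.coeff i : ℝ)| := by
    rw [eq_intCast, Complex.norm_intCast]
  rw [h1] at h
  refine h.trans ?_
  refine mul_le_mul_of_nonneg_left ?_ (by positivity)
  exact_mod_cast Nat.choose_le_two_pow _ _

/-- multiplication by `x` in coordinates -/
theorem mul_x_bd (g : ℤ[X]) (hm : g.Monic) (G : ℤ) (hG1 : 1 ≤ G) (hG : ∀ i, |g.coeff i| ≤ G)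
    (v : AdjoinRoot g) (A : ℤ) (hv : Bd (AdjoinRoot.powerBasisAux' hm) v A) :
    Bd (AdjoinRoot.powerBasisAux' hm) (AdjoinRoot.root g * v) ((g.natDegree * G) * A) := by
  classical
  set b := AdjoinRoot.powerBasisAux' hm with hb
  have hbk : ∀ k, b k = AdjoinRoot.root g ^ (k : ℕ) := (AdjoinRoot.powerBasis' hm).basis_eq_pow
  have hA : 0 ≤ A ∨ g.natDegree = 0 := by
    rcases Nat.eq_zero_or_pos g.natDegree with h | h
    · exact Or.inr h
    · exact Or.inl ((abs_nonneg _).trans (hv ⟨0, h⟩))
  intro i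
  have hA' : 0 ≤ A := by
    rcases hA with h | h
    · exact h
    · exact absurd i.2 (by omega)
  have key : ∀ k : Fin g.natDegree, |b.repr (AdjoinRoot.root g * b k) i| ≤ G := by
    intro k
    rw [hbk k, ← pow_succ']
    by_cases hk : (k : ℕ) + 1 < g.natDegree
    · have h1 : AdjoinRoot.root g ^ ((k : ℕ) + 1) = b ⟨(k : ℕ) + 1, hk⟩ :=
        (hbk ⟨(k : ℕ) + 1, hk⟩).symm
      rw [h1, b.repr_self, Finsupp.single_apply]
      split_ifs
      · simpa using hG1
      · simpa using (by omega : (0 : ℤ) ≤ G)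
    · have hk2 : (k : ℕ) + 1 = g.natDegree := by have := k.2; omega
      have h2 : AdjoinRoot.root g ^ g.natDegree =
          -∑ j : Fin g.natDegree, g.coeff j • b j := by
        have h3 := congrArg (AdjoinRoot.mk g) hm.as_sum
        rw [AdjoinRoot.mk_self, map_add, map_pow, AdjoinRoot.mk_X, map_sum] at h3
        rw [eq_neg_iff_add_eq_zero]
        rw [h3]
        congr 1
        rw [Finset.sum_range]
        refine Finset.sum_congr rfl fun j _ => ?_
        rw [map_mul, map_pow, AdjoinRoot.mk_X, AdjoinRoot.mk_C, hbk, zsmul_eq_mul]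
        simp
      rw [hk2, h2, map_neg, Finsupp.neg_apply, abs_neg, map_sum, Finsupp.finsetSum_apply]
      have h4 : ∑ j : Fin g.natDegree, (b.repr (g.coeff (j : ℕ) • b j)) i = g.coeff (i : ℕ) := by
        rw [Finset.sum_eq_single i]
        · rw [map_smul, b.repr_self, Finsupp.smul_apply, Finsupp.single_eq_same, smul_eq_mul,
            mul_one]
        · intro j _ hj
          rw [map_smul, b.repr_self, Finsupp.smul_apply, Finsupp.single_eq_of_ne (Ne.symm hj),
            smul_zero]
        · intro h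
          exact absurd (Finset.mem_univ i) h
      rw [h4]
      exact hG _
  have hsum : b.repr (AdjoinRoot.root g * v) i =
      ∑ k, b.repr v k * b.repr (AdjoinRoot.root g * b k) i := by
    conv_lhs => rw [← b.sum_repr v]
    rw [Finset.mul_sum, map_sum, Finsupp.finsetSum_apply]
    refine Finset.sum_congr rfl fun k _ => ?_
    rw [mul_smul_comm, map_smul, Finsupp.smul_apply, smul_eq_mul]
  rw [hsum]
  calc |∑ k, b.repr v k * b.repr (AdjoinRoot.root g * b k) i|
      ≤ ∑ k, |b.repr v k * b.repr (AdjoinRoot.root g * b k) i| := Finset.abs_sum_le_sum_abs _ _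
    _ ≤ ∑ _k : Fin g.natDegree, A * G := by
        refine Finset.sum_le_sum fun k _ => ?_
        rw [abs_mul]
        exact mul_le_mul (hv k) (key k) (abs_nonneg _) hA'
    _ = (g.natDegree * G) * A := by
        rw [Finset.sum_const, Finset.card_univ, Fintype.card_fin, nsmul_eq_mul]
        ring

/-- The residue map at a root of `g` modulo `p`. -/
noncomputable def res (g : ℤ[X]) (p r : ℕ) (h : (p : ℤ) ∣ g.eval (r : ℤ)) :
    AdjoinRoot g →+* ZMod p :=
  AdjoinRoot.lift (Int.castRingHom (ZMod p)) (r : ZMod p) (by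
    have h1 : g.eval₂ (Int.castRingHom (ZMod p)) ((Int.castRingHom (ZMod p)) (r : ℤ)) =
        (Int.castRingHom (ZMod p)) (g.eval (r : ℤ)) :=
      Polynomial.eval₂_at_apply (Int.castRingHom (ZMod p)) (r : ℤ)
    rw [eq_intCast (Int.castRingHom (ZMod p)) (g.eval (r : ℤ)),
      (ZMod.intCast_zmod_eq_zero_iff_dvd _ p).2 h] at h1
    have e : (Int.castRingHom (ZMod p)) (r : ℤ) = ((r : ℕ) : ZMod p) := by simp
    rw [e] at h1
    exact h1)

theorem res_root (g : ℤ[X]) (p r : ℕ) (h : (p : ℤ) ∣ g.eval (r : ℤ)) :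
    res g p r h (AdjoinRoot.root g) = r := by
  simp [res]

theorem res_ker_ne (g : ℤ[X]) (p q r s : ℕ) (hp : p.Prime) (hq : q.Prime) (hr : r < p) (hs : s < q)
    (h : (p : ℤ) ∣ g.eval (r : ℤ)) (h' : (q : ℤ) ∣ g.eval (s : ℤ)) (hne : (p, r) ≠ (q, s)) :
    RingHom.ker (res g p r h) ≠ RingHom.ker (res g q s h') := by
  intro heq
  by_cases hpq : p = q
  · subst hpq
    have hrs : r ≠ s := fun e => hne (by rw [e])
    have h1 : AdjoinRoot.root g - (r : AdjoinRoot g) ∈ RingHom.ker (res g p r h) := by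
      rw [RingHom.mem_ker, map_sub, res_root, map_natCast, sub_self]
    rw [heq, RingHom.mem_ker, map_sub, res_root, map_natCast, sub_eq_zero] at h1
    have h2 := (ZMod.natCast_eq_natCast_iff' _ _ _).1 h1
    rw [Nat.mod_eq_of_lt hs, Nat.mod_eq_of_lt hr] at h2
    exact hrs h2.symm
  · have h1 : (p : AdjoinRoot g) ∈ RingHom.ker (res g p r h) := by
      rw [RingHom.mem_ker, map_natCast]
      simp
    rw [heq, RingHom.mem_ker, map_natCast, ZMod.natCast_eq_zero_iff] at h1
    exact hpq ((Nat.prime_dvd_prime_iff_eq hq hp).1 h1).symm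

/-- The number of roots modulo a prime is at most the degree. -/
theorem rho_le (g : ℤ[X]) (hm : g.Monic) (p : ℕ) (hp : p.Prime) : rho g p ≤ g.natDegree := by
  classical
  haveI := Fact.mk hp
  have hm' : (g.map (Int.castRingHom (ZMod p))).Monic := hm.map _
  have h1 : ((Finset.range p).filter fun x : ℕ => (p : ℤ) ∣ g.eval (x : ℤ)).card ≤
      (g.map (Int.castRingHom (ZMod p))).roots.toFinset.card := by
    refine Finset.card_le_card_of_injOn (fun x => (x : ZMod p)) ?_ ?_
    · intro x hx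
      have hx' := Finset.mem_filter.1 (Finset.mem_coe.1 hx)
      refine Finset.mem_coe.2 (Multiset.mem_toFinset.2 ((mem_roots hm'.ne_zero).2 ?_))
      change (g.map (Int.castRingHom (ZMod p))).eval ((x : ℕ) : ZMod p) = 0
      have e : ((x : ℕ) : ZMod p) = (Int.castRingHom (ZMod p)) (x : ℤ) := by simp
      rw [e, eval_map_apply, eq_intCast]
      exact (ZMod.intCast_zmod_eq_zero_iff_dvd _ p).2 hx'.2
    · intro x hx y hy hxy
      have hx' := Finset.mem_range.1 (Finset.mem_filter.1 (Finset.mem_coe.1 hx)).1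
      have hy' := Finset.mem_range.1 (Finset.mem_filter.1 (Finset.mem_coe.1 hy)).1
      have h2 := (ZMod.natCast_eq_natCast_iff' _ _ _).1 hxy
      rwa [Nat.mod_eq_of_lt hx', Nat.mod_eq_of_lt hy'] at h2
  refine h1.trans ((Multiset.toFinset_card_le _).trans ?_)
  refine (card_roots' _).trans ?_
  rw [hm.natDegree_map]

end Pool.Agent.Helper72.EP
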