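import Pool.Agent.Helper72.EP.Norm
import Pool.Agent.Helper72.EP.Setup

/-!
# EP, module OSM: double counting
-/

set_option autoImplicit false

open Polynomial Module

namespace Pool.Agent.Helper72.EP

open Pool.Agent.Helper20.EP (RootsLE rho primesLE)

/-- The pairs (prime, root modulo the prime). -/
noncomputable def Pairs (g : ℤ[X]) (Y : ℝ) : Finset ((_ : ℕ) × ℕ) :=
  (primesLE Y).sigma fun p => (Finset.range p).filter fun x : ℕ => (p : ℤ) ∣ g.eval (x : ℤ)

/-- The value of the polynomial with coefficient vector `a`. -/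
def val {D : ℕ} (a : Fin D → ℤ) (r : ℕ) : ℤ := ∑ k : Fin D, a k * (r : ℤ) ^ (k : ℕ)

theorem res_pt (g : ℤ[X]) (hm : g.Monic) (p r : ℕ) (h : (p : ℤ) ∣ g.eval (r : ℤ))
    (a : Fin g.natDegree → ℤ) :
    res g p r h ((AdjoinRoot.powerBasisAux' hm).equivFun.symm a) = ((val a r : ℤ) : ZMod p) := by
  have hbk : ∀ k, (AdjoinRoot.powerBasisAux' hm) k = AdjoinRoot.root g ^ (k : ℕ) :=
    (AdjoinRoot.powerBasis' hm).basis_eq_pow
  rw [Basis.equivFun_symm_apply, map_sum, val]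
  push_cast
  refine Finset.sum_congr rfl fun k _ => ?_
  rw [hbk k, zsmul_eq_mul, map_mul, map_pow, res_root]
  simp

theorem res_pt_zero (g : ℤ[X]) (hm : g.Monic) (p r : ℕ) (h : (p : ℤ) ∣ g.eval (r : ℤ))
    (a : Fin g.natDegree → ℤ) :
    res g p r h ((AdjoinRoot.powerBasisAux' hm).equivFun.symm a) = 0 ↔ (p : ℤ) ∣ val a r := by
  rw [res_pt, ZMod.intCast_zmod_eq_zero_iff_dvd]

theorem logsum_le (g : ℤ[X]) (hm : g.Monic) (hi : Irreducible g) (K : ℕ) (hK : 1 ≤ K)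
    (hx : ∀ v A, Bd (AdjoinRoot.powerBasisAux' hm) v A →
      Bd (AdjoinRoot.powerBasisAux' hm) (AdjoinRoot.root g * v) ((K : ℤ) * A))
    (X : ℕ) (Y : ℝ) (a : Fin g.natDegree → ℤ) (ha : a ∈ Box g.natDegree X) (ha0 : a ≠ 0) :
    ∑ q ∈ (Pairs g Y).filter (fun q => (q.1 : ℤ) ∣ val a q.2), Real.log (q.1 : ℝ) ≤
      Real.log ((g.natDegree.factorial : ℝ) *
        ((K : ℝ) ^ g.natDegree * X) ^ g.natDegree) := by
  classical
  have hprime : Prime g := hi.prime
  haveI : IsDomain (AdjoinRoot g) := AdjoinRoot.isDomain_of_prime hprime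
  haveI : Module.Free ℤ (AdjoinRoot g) := hm.free_adjoinRoot
  haveI : Module.Finite ℤ (AdjoinRoot g) := hm.finite_adjoinRoot
  set b := AdjoinRoot.powerBasisAux' hm with hb
  have hbk : ∀ k, b k = AdjoinRoot.root g ^ (k : ℕ) := (AdjoinRoot.powerBasis' hm).basis_eq_pow
  set v := b.equivFun.symm a with hv
  have hv0 : v ≠ 0 := by
    intro h
    apply ha0
    have := congrArg b.equivFun h
    rwa [hv, LinearEquiv.apply_symm_apply, map_zero] at this
  have hvB : Bd b v X := by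
    intro i
    rw [hv, ← b.equivFun_apply, LinearEquiv.apply_symm_apply]
    exact mem_Box.1 ha i
  have hN := norm_le b (AdjoinRoot.root g) (K : ℤ) (by exact_mod_cast hK) hx hbk v X
    (by positivity) hvB
  have hN0 : Algebra.norm ℤ v ≠ 0 := (Algebra.norm_ne_zero_iff).2 hv0
  set S := (Pairs g Y).filter (fun q => (q.1 : ℤ) ∣ val a q.2) with hS
  have hmem : ∀ q ∈ S, q.1.Prime ∧ q.2 < q.1 ∧ (q.1 : ℤ) ∣ g.eval (q.2 : ℤ) ∧
      (q.1 : ℤ) ∣ val a q.2 := by
    intro q hq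
    obtain ⟨h1, h2⟩ := Finset.mem_filter.1 hq
    obtain ⟨h3, h4⟩ := Finset.mem_sigma.1 h1
    obtain ⟨h5, h6⟩ := Finset.mem_filter.1 h4
    exact ⟨(Finset.mem_filter.1 h3).2, Finset.mem_range.1 h5, h6, h2⟩
  have hdvd := prod_dvd_norm (R := AdjoinRoot g) (ι := S) (fun q => q.1.1)
    (fun q => (hmem q.1 q.2).1) (fun q => res g q.1.1 q.1.2 (hmem q.1 q.2).2.2.1) (by
      intro q q' hne
      apply res_ker_ne g _ _ _ _ (hmem q.1 q.2).1 (hmem q'.1 q'.2).1 (hmem q.1 q.2).2.1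
        (hmem q'.1 q'.2).2.1
      intro h
      apply hne
      apply Subtype.ext
      have h1 : q.1.1 = q'.1.1 := congrArg Prod.fst h
      have h2 : q.1.2 = q'.1.2 := congrArg Prod.snd h
      exact Sigma.ext h1 (heq_of_eq h2)) v hv0 (by
      intro q
      rw [hv, hb]
      exact (res_pt_zero g hm _ _ _ a).2 (hmem q.1 q.2).2.2.2)
  have hprod : ∏ q : S, q.1.1 = ∏ q ∈ S, q.1 := Finset.prod_coe_sort S (fun q => q.1)
  rw [hprod] at hdvd
  have hle : ∏ q ∈ S, q.1 ≤ (Algebra.norm ℤ v).natAbs :=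
    Nat.le_of_dvd (Int.natAbs_pos.2 hN0) hdvd
  have hpos : ∀ q ∈ S, ((q.1 : ℕ) : ℝ) ≠ 0 := by
    intro q hq
    exact_mod_cast (hmem q hq).1.ne_zero
  rw [← Real.log_prod hpos]
  have hprodpos : 0 < ∏ q ∈ S, ((q.1 : ℕ) : ℝ) :=
    Finset.prod_pos fun q hq => by exact_mod_cast (hmem q hq).1.pos
  apply Real.log_le_log hprodpos
  have h1 : (∏ q ∈ S, ((q.1 : ℕ) : ℝ)) ≤ ((Algebra.norm ℤ v).natAbs : ℝ) := by
    exact_mod_cast hle
  refine h1.trans ?_
  have h2 : (((Algebra.norm ℤ v).natAbs : ℕ) : ℝ) = ((|Algebra.norm ℤ v| : ℤ) : ℝ) := by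
    rw [Nat.cast_natAbs]
  rw [h2]
  exact_mod_cast hN

theorem zero_mem_Box {D X : ℕ} : (0 : Fin D → ℤ) ∈ Box D X := by
  rw [mem_Box]
  intro i
  simp

theorem val_zero {D : ℕ} (r : ℕ) : val (0 : Fin D → ℤ) r = 0 := by simp [val]

/-- The double count. -/
theorem double_count (g : ℤ[X]) (hm : g.Monic) (hi : Irreducible g) (K : ℕ) (hK : 1 ≤ K)
    (hx : ∀ v A, Bd (AdjoinRoot.powerBasisAux' hm) v A →
      Bd (AdjoinRoot.powerBasisAux' hm) (AdjoinRoot.root g * v) ((K : ℤ) * A))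
    (X : ℕ) (Y : ℝ)
    (hB : 0 ≤ Real.log ((g.natDegree.factorial : ℝ) *
        ((K : ℝ) ^ g.natDegree * X) ^ g.natDegree)) :
    ∑ q ∈ Pairs g Y, Real.log (q.1 : ℝ) *
      ((((Box g.natDegree X).filter fun a => (q.1 : ℤ) ∣ val a q.2).card : ℝ) - 1) ≤
      ((Box g.natDegree X).card : ℝ) * Real.log ((g.natDegree.factorial : ℝ) *
        ((K : ℝ) ^ g.natDegree * X) ^ g.natDegree) := by
  classical
  have h1 : ∀ q : (_ : ℕ) × ℕ,
      ((((Box g.natDegree X).filter fun a => (q.1 : ℤ) ∣ val a q.2).card : ℝ) - 1) =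
        ∑ a ∈ (Box g.natDegree X).erase 0, if (q.1 : ℤ) ∣ val a q.2 then (1 : ℝ) else 0 := by
    intro q
    rw [Finset.sum_boole]
    have h2 : (Box g.natDegree X).filter (fun a => (q.1 : ℤ) ∣ val a q.2) =
        insert 0 (((Box g.natDegree X).erase 0).filter fun a => (q.1 : ℤ) ∣ val a q.2) := by
      ext a
      simp only [Finset.mem_filter, Finset.mem_insert, Finset.mem_erase]
      constructor
      · rintro ⟨h3, h4⟩
        by_cases h5 : a = 0
        · exact Or.inl h5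
        · exact Or.inr ⟨⟨h5, h3⟩, h4⟩
      · rintro (h3 | ⟨⟨_, h3⟩, h4⟩)
        · rw [h3]
          exact ⟨zero_mem_Box, by rw [val_zero]; exact dvd_zero _⟩
        · exact ⟨h3, h4⟩
    rw [h2, Finset.card_insert_of_notMem (by simp)]
    push_cast
    ring
  calc ∑ q ∈ Pairs g Y, Real.log (q.1 : ℝ) *
      ((((Box g.natDegree X).filter fun a => (q.1 : ℤ) ∣ val a q.2).card : ℝ) - 1)
      = ∑ q ∈ Pairs g Y, ∑ a ∈ (Box g.natDegree X).erase 0,
          if (q.1 : ℤ) ∣ val a q.2 then Real.log (q.1 : ℝ) else 0 := by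
        refine Finset.sum_congr rfl fun q _ => ?_
        rw [h1 q, Finset.mul_sum]
        refine Finset.sum_congr rfl fun a _ => ?_
        split_ifs <;> simp
    _ = ∑ a ∈ (Box g.natDegree X).erase 0, ∑ q ∈ Pairs g Y,
          if (q.1 : ℤ) ∣ val a q.2 then Real.log (q.1 : ℝ) else 0 := Finset.sum_comm
    _ ≤ ∑ _a ∈ (Box g.natDegree X).erase 0, Real.log ((g.natDegree.factorial : ℝ) *
        ((K : ℝ) ^ g.natDegree * X) ^ g.natDegree) := by
        refine Finset.sum_le_sum fun a ha => ?_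
        obtain ⟨ha0, ha1⟩ := Finset.mem_erase.1 ha
        rw [← Finset.sum_filter]
        exact logsum_le g hm hi K hK hx X Y a ha1 ha0
    _ = (((Box g.natDegree X).erase 0).card : ℝ) * Real.log ((g.natDegree.factorial : ℝ) *
        ((K : ℝ) ^ g.natDegree * X) ^ g.natDegree) := by
        rw [Finset.sum_const, nsmul_eq_mul]
    _ ≤ _ := by
        refine mul_le_mul_of_nonneg_right ?_ hB
        exact_mod_cast Finset.card_erase_le

theorem sum_pairs (g : ℤ[X]) (Y : ℝ) (f : ℕ → ℝ) :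
    ∑ q ∈ Pairs g Y, f q.1 = ∑ p ∈ primesLE Y, (rho g p : ℝ) * f p := by
  unfold Pairs
  rw [Finset.sum_sigma]
  refine Finset.sum_congr rfl fun p _ => ?_
  simp only
  rw [Finset.sum_const, nsmul_eq_mul]
  rfl

end Pool.Agent.Helper72.EP
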