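import Pool.Agent.Helper20.EP.Defs

/-!
# EP, module OSM: sums of `log p` with weights over the primes
-/

set_option autoImplicit false

open Finset Real

namespace Pool.Agent.Helper72.EP

open Pool.Agent.Helper20.EP (primesLE)

/-- `log p` at the primes, zero elsewhere. -/
noncomputable def lp (n : ℕ) : ℝ := if n.Prime then Real.log n else 0

theorem sum_lp_range (N : ℕ) (f : ℕ → ℝ) :
    ∑ p ∈ (range (N + 1)).filter Nat.Prime, Real.log p * f p =
      ∑ n ∈ range (N + 1), lp n * f n := by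
  rw [Finset.sum_filter]
  refine Finset.sum_congr rfl fun n _ => ?_
  unfold lp
  split_ifs <;> simp

theorem sum_lp_le (N : ℕ) : ∑ n ∈ range (N + 1), lp n ≤ Real.log 4 * N := by
  have h := Chebyshev.theta_le_log4_mul_x (x := (N : ℝ)) (Nat.cast_nonneg N)
  refine le_trans (le_of_eq ?_) h
  have h1 := sum_lp_range N (fun _ => 1)
  simp only [mul_one] at h1
  rw [← h1, Chebyshev.theta_eq_sum_Icc]
  simp only [Nat.floor_natCast]
  refine Finset.sum_congr ?_ fun _ _ => rfl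
  ext p
  simp only [mem_filter, mem_range, mem_Icc]
  constructor
  · rintro ⟨h2, h3⟩
    exact ⟨⟨Nat.zero_le _, by omega⟩, h3⟩
  · rintro ⟨⟨_, h2⟩, h3⟩
    exact ⟨by omega, h3⟩

/-- Abel summation against an antitone weight. -/
theorem abel_weight (w : ℕ → ℝ) (hw : ∀ n, 1 ≤ n → w (n + 1) ≤ w n) (N : ℕ) (hN : 1 ≤ N) :
    ∑ n ∈ range (N + 1), lp n * w n ≤ Real.log 4 * ∑ n ∈ Icc 1 N, w n -
      (Real.log 4 * N - ∑ n ∈ range (N + 1), lp n) * w N := by
  induction N, hN using Nat.le_induction with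
  | base =>
    have e0 : lp 0 = 0 := by simp [lp]
    have e1 : lp 1 = 0 := by simp [lp, Nat.not_prime_one]
    simp [Finset.sum_range_succ, e0, e1]
  | succ N hN ih =>
    rw [Finset.sum_range_succ, Finset.sum_range_succ (fun n => lp n) (N + 1),
      Finset.sum_Icc_succ_top (by omega)]
    have h1 := sum_lp_le N
    have h2 := hw N hN
    push_cast
    nlinarith [mul_nonneg (sub_nonneg.2 h1) (sub_nonneg.2 h2)]

theorem sum_weight_le (w : ℕ → ℝ) (hw : ∀ n, 1 ≤ n → w (n + 1) ≤ w n) (hw0 : ∀ n, 1 ≤ n → 0 ≤ w n)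
    (N : ℕ) (hN : 1 ≤ N) :
    ∑ n ∈ range (N + 1), lp n * w n ≤ Real.log 4 * ∑ n ∈ Icc 1 N, w n := by
  have h := abel_weight w hw N hN
  have h1 := sum_lp_le N
  nlinarith [mul_nonneg (sub_nonneg.2 h1) (hw0 N hN)]

theorem sum_rpow_le (s : ℝ) (hs : 0 < s) (hs1 : s ≤ 1) (N : ℕ) :
    ∑ n ∈ Icc 1 N, (n : ℝ) ^ (s - 1) ≤ (N : ℝ) ^ s / s := by
  induction N with
  | zero => simp [Real.zero_rpow hs.ne']
  | succ N ih =>
    rw [Finset.sum_Icc_succ_top (by omega)]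
    have hN : (0 : ℝ) < (N : ℝ) + 1 := by positivity
    have key : (N : ℝ) ^ s ≤ ((N : ℝ) + 1) ^ s - s * ((N : ℝ) + 1) ^ (s - 1) := by
      have h1 : (1 + (-(1 / ((N : ℝ) + 1)))) ^ s ≤ 1 + s * (-(1 / ((N : ℝ) + 1))) := by
        apply rpow_one_add_le_one_add_mul_self _ hs.le hs1
        have : 1 / ((N : ℝ) + 1) ≤ 1 := by
          rw [div_le_one hN]
          linarith [Nat.cast_nonneg (α := ℝ) N]
        linarith
      have h2 : (N : ℝ) = ((N : ℝ) + 1) * (1 + (-(1 / ((N : ℝ) + 1)))) := by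
        field_simp
        ring
      have h3 : (0 : ℝ) ≤ 1 + (-(1 / ((N : ℝ) + 1))) := by
        have : 1 / ((N : ℝ) + 1) ≤ 1 := by
          rw [div_le_one hN]
          linarith [Nat.cast_nonneg (α := ℝ) N]
        linarith
      calc (N : ℝ) ^ s = (((N : ℝ) + 1) * (1 + (-(1 / ((N : ℝ) + 1))))) ^ s := by rw [← h2]
        _ = ((N : ℝ) + 1) ^ s * (1 + (-(1 / ((N : ℝ) + 1)))) ^ s := Real.mul_rpow hN.le h3
        _ ≤ ((N : ℝ) + 1) ^ s * (1 + s * (-(1 / ((N : ℝ) + 1)))) :=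
          mul_le_mul_of_nonneg_left h1 (Real.rpow_nonneg hN.le _)
        _ = ((N : ℝ) + 1) ^ s - s * ((N : ℝ) + 1) ^ (s - 1) := by
          rw [Real.rpow_sub_one hN.ne']
          field_simp
          ring
    have h4 : ((N + 1 : ℕ) : ℝ) = (N : ℝ) + 1 := by push_cast; ring
    rw [h4]
    rw [le_div_iff₀ hs] at ih ⊢
    nlinarith

/-- The two sums over primes which are needed. -/
theorem prime_sum_one (Y : ℝ) (hY : 0 ≤ Y) :
    ∑ p ∈ primesLE Y, Real.log p ≤ Real.log 4 * Y := by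
  have h := sum_lp_le ⌊Y⌋₊
  have h1 := sum_lp_range ⌊Y⌋₊ (fun _ => 1)
  simp only [mul_one] at h1
  unfold primesLE
  rw [h1]
  refine h.trans ?_
  exact mul_le_mul_of_nonneg_left (Nat.floor_le hY) (Real.log_nonneg (by norm_num))

theorem prime_sum_two (s : ℝ) (hs : 0 < s) (hs1 : s ≤ 1) (Y : ℝ) (hY : 1 ≤ Y) :
    ∑ p ∈ primesLE Y, Real.log p * (p : ℝ) ^ (s - 1) ≤ Real.log 4 / s * Y ^ s := by
  have hN : 1 ≤ ⌊Y⌋₊ := Nat.le_floor (by simpa using hY)
  unfold primesLE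
  rw [sum_lp_range ⌊Y⌋₊ (fun n => (n : ℝ) ^ (s - 1))]
  have h1 := sum_weight_le (fun n => (n : ℝ) ^ (s - 1)) (by
    intro n hn
    have hn' : (0 : ℝ) < n := by exact_mod_cast hn
    refine Real.rpow_le_rpow_of_nonpos hn' (by push_cast; linarith) (by linarith))
    (fun n _ => Real.rpow_nonneg (Nat.cast_nonneg n) _) ⌊Y⌋₊ hN
  refine h1.trans ?_
  have h2 := sum_rpow_le s hs hs1 ⌊Y⌋₊
  have h3 : (⌊Y⌋₊ : ℝ) ^ s ≤ Y ^ s :=
    Real.rpow_le_rpow (Nat.cast_nonneg _) (Nat.floor_le (by linarith)) hs.le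
  have h4 : (⌊Y⌋₊ : ℝ) ^ s / s ≤ Y ^ s / s := div_le_div_of_nonneg_right h3 hs.le
  calc Real.log 4 * ∑ n ∈ Icc 1 ⌊Y⌋₊, (n : ℝ) ^ (s - 1)
      ≤ Real.log 4 * (Y ^ s / s) :=
        mul_le_mul_of_nonneg_left (h2.trans h4) (Real.log_nonneg (by norm_num))
    _ = Real.log 4 / s * Y ^ s := by ring

end Pool.Agent.Helper72.EP
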