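import Pool.Agent.Helper20.EP.Spec1
import Pool.Agent.Helper72.EP.Count
import Pool.Agent.Helper72.EP.PrimeSum

/-!
# EP, module OSM: one-sided theorem of Mertens for polynomials
-/

set_option autoImplicit false

open Polynomial Module

namespace Pool.Agent.Helper72.EP

open Pool.Agent.Helper20.EP (RootsLE rho primesLE S_OSM)

/-- The lattice point count for one pair. -/
theorem one_pair (g : ℤ[X]) (hm : g.Monic) (hi : Irreducible g) (K : ℕ) (hK : 1 ≤ K)
    (hx : ∀ v A, Bd (AdjoinRoot.powerBasisAux' hm) v A →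
      Bd (AdjoinRoot.powerBasisAux' hm) (AdjoinRoot.root g * v) ((K : ℤ) * A))
    (hD : 1 ≤ g.natDegree) (p r : ℕ) (hp : p.Prime) (h : (p : ℤ) ∣ g.eval (r : ℤ)) (X : ℕ)
    (Y : ℝ) (hpY : (p : ℝ) ≤ Y)
    (hX : (g.natDegree : ℝ) * (K : ℝ) ^ g.natDegree * Y ^ (1 / (g.natDegree : ℝ)) ≤ X) :
    ((Box g.natDegree X).card : ℝ) * (1 / p - g.natDegree *
      ((p : ℝ) ^ (1 / (g.natDegree : ℝ) - 1) / Y ^ (1 / (g.natDegree : ℝ)))) ≤
      (((Box g.natDegree X).filter fun a => (p : ℤ) ∣ val a r).card : ℝ) := by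
  classical
  set D := g.natDegree with hDdef
  have hprime : Prime g := hi.prime
  haveI : IsDomain (AdjoinRoot g) := AdjoinRoot.isDomain_of_prime hprime
  haveI : Module.Free ℤ (AdjoinRoot g) := hm.free_adjoinRoot
  haveI : Module.Finite ℤ (AdjoinRoot g) := hm.finite_adjoinRoot
  haveI := Fact.mk hp
  have hbk : ∀ k, (AdjoinRoot.powerBasisAux' hm) k = AdjoinRoot.root g ^ (k : ℕ) :=
    (AdjoinRoot.powerBasis' hm).basis_eq_pow
  have hDpos : (0 : ℝ) < D := by exact_mod_cast hD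
  have hp0 : (0 : ℝ) < p := by exact_mod_cast hp.pos
  have hY0 : 0 < Y := lt_of_lt_of_le hp0 hpY
  set s : ℝ := 1 / (D : ℝ) with hs
  have hs0 : 0 < s := by positivity
  set m : ℕ := ⌊(p : ℝ) ^ s⌋₊ with hmdef
  have hm1 : p < (m + 1) ^ D := by
    have h1 : (p : ℝ) ^ s < m + 1 := Nat.lt_floor_add_one _
    have h2 : ((p : ℝ) ^ s) ^ D = p := by
      rw [← Real.rpow_natCast, ← Real.rpow_mul hp0.le, hs, one_div, inv_mul_cancel₀ hDpos.ne',
        Real.rpow_one]
    have h3 : (p : ℝ) < ((m : ℝ) + 1) ^ D := by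
      calc (p : ℝ) = ((p : ℝ) ^ s) ^ D := h2.symm
        _ < ((m : ℝ) + 1) ^ D :=
          pow_lt_pow_left₀ h1 (Real.rpow_nonneg hp0.le _) (by omega)
    exact_mod_cast h3
  set T : ℕ := D * (K ^ D * m) with hT
  have hmle : (m : ℝ) ≤ (p : ℝ) ^ s := Nat.floor_le (Real.rpow_nonneg hp0.le _)
  have hpYs : (p : ℝ) ^ s ≤ Y ^ s := Real.rpow_le_rpow hp0.le hpY hs0.le
  have hTle : (T : ℝ) ≤ D * (K : ℝ) ^ D * (p : ℝ) ^ s := by
    rw [hT]
    push_cast
    have : (D : ℝ) * ((K : ℝ) ^ D * m) = D * (K : ℝ) ^ D * m := by ring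
    rw [this]
    exact mul_le_mul_of_nonneg_left hmle (by positivity)
  have hTX : T ≤ X := by
    have : (T : ℝ) ≤ X := hTle.trans
      ((mul_le_mul_of_nonneg_left hpYs (by positivity)).trans hX)
    exact_mod_cast this
  have hc := card_ker (AdjoinRoot.powerBasisAux' hm) (AdjoinRoot.root g) (K : ℤ)
    (by exact_mod_cast hK) hx hbk (res g p r h) m hm1 X T (by rw [hT]; push_cast; rfl) hTX
  have hfil : ((Box D X).filter fun a =>
      res g p r h ((AdjoinRoot.powerBasisAux' hm).equivFun.symm a) = 0) =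
      (Box D X).filter fun a => (p : ℤ) ∣ val a r := by
    refine Finset.filter_congr fun a _ => ?_
    exact res_pt_zero g hm p r h a
  rw [hfil] at hc
  have hX0 : (0 : ℝ) < X := by
    refine lt_of_lt_of_le ?_ hX
    have : (1 : ℝ) ≤ K := by exact_mod_cast hK
    positivity
  -- Bernoulli
  have hn : ((Box D X).card : ℝ) = (2 * (X : ℝ) + 1) ^ D := by
    rw [card_Box]
    push_cast
    ring
  have hbern : ((Box D X).card : ℝ) * (1 - D * (T / X)) ≤ (2 * ((X : ℝ) - T) + 1) ^ D := by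
    have h1 : (2 * ((X : ℝ) - T) + 1) = (2 * (X : ℝ) + 1) * (1 + (-(2 * T / (2 * X + 1)))) := by
      field_simp
      ring
    have hTX' : (T : ℝ) ≤ X := by exact_mod_cast hTX
    have hT0 : (0 : ℝ) ≤ T := Nat.cast_nonneg _
    have h2 : 2 * (T : ℝ) / (2 * X + 1) ≤ 1 := by
      rw [div_le_one (by positivity)]
      linarith
    have h3 := one_add_mul_le_pow (a := -(2 * (T : ℝ) / (2 * X + 1))) (by linarith) D
    have h4 : 2 * (T : ℝ) / (2 * X + 1) ≤ T / X := by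
      rw [div_le_div_iff₀ (by positivity) hX0]
      nlinarith
    rw [h1, mul_pow, hn]
    refine mul_le_mul_of_nonneg_left ?_ (by positivity)
    refine le_trans ?_ h3
    have h5 : (D : ℝ) * (2 * (T : ℝ) / (2 * X + 1)) ≤ D * (T / X) :=
      mul_le_mul_of_nonneg_left h4 hDpos.le
    linarith
  have hc' : (2 * ((X : ℝ) - T) + 1) ^ D ≤
      (p : ℝ) * (((Box D X).filter fun a => (p : ℤ) ∣ val a r).card : ℝ) := by
    have h1 : ((2 * (X - T) + 1 : ℕ) : ℝ) = 2 * ((X : ℝ) - T) + 1 := by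
      push_cast [Nat.cast_sub hTX]
      ring
    rw [← h1]
    exact_mod_cast hc
  have hTX2 : (T : ℝ) / X ≤ (p : ℝ) ^ s / Y ^ s := by
    have hYs : 0 < Y ^ s := Real.rpow_pos_of_pos hY0 _
    rw [div_le_div_iff₀ hX0 hYs]
    calc (T : ℝ) * Y ^ s ≤ (D * (K : ℝ) ^ D * (p : ℝ) ^ s) * Y ^ s :=
          mul_le_mul_of_nonneg_right hTle hYs.le
      _ = (p : ℝ) ^ s * (D * (K : ℝ) ^ D * Y ^ s) := by ring
      _ ≤ (p : ℝ) ^ s * X := mul_le_mul_of_nonneg_left hX (Real.rpow_nonneg hp0.le _)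
  have hfinal : ((Box D X).card : ℝ) * (1 - D * ((p : ℝ) ^ s / Y ^ s)) ≤
      (p : ℝ) * (((Box D X).filter fun a => (p : ℤ) ∣ val a r).card : ℝ) := by
    refine le_trans ?_ (hbern.trans hc')
    refine mul_le_mul_of_nonneg_left ?_ (Nat.cast_nonneg _)
    have := mul_le_mul_of_nonneg_left hTX2 hDpos.le
    linarith
  have hps : (p : ℝ) ^ (s - 1) = (p : ℝ) ^ s / p := Real.rpow_sub_one hp0.ne' s
  rw [hps]
  have e1 : ((Box D X).card : ℝ) * (1 / (p : ℝ) - D * ((p : ℝ) ^ s / p / Y ^ s)) =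
      (((Box D X).card : ℝ) * (1 - D * ((p : ℝ) ^ s / Y ^ s))) / p := by
    field_simp
  rw [e1, div_le_iff₀ hp0, mul_comm _ (p : ℝ)]
  exact hfinal

theorem main : S_OSM := by
  classical
  intro D
  rcases Nat.eq_zero_or_pos D with hD0 | hDpos
  · refine ⟨1, one_pos, ?_⟩
    intro g hm hi hd
    exfalso
    have : g = 1 := hm.natDegree_eq_zero.1 (hd.trans hD0)
    rw [this] at hi
    exact hi.not_isUnit isUnit_one
  have hDr : (0 : ℝ) < D := by exact_mod_cast hDpos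
  have hD1 : (1 : ℝ) ≤ D := by exact_mod_cast hDpos
  have hlog2 : 0 < Real.log 2 := Real.log_pos (by norm_num)
  have hlog4 : 0 ≤ Real.log 4 := Real.log_nonneg (by norm_num)
  have hlogfac : 0 ≤ Real.log (D.factorial : ℝ) :=
    Real.log_nonneg (by exact_mod_cast Nat.factorial_pos D)
  have hlog2D : 0 ≤ Real.log (2 * D : ℝ) := Real.log_nonneg (by linarith)
  -- the constant
  set C0 : ℝ := Real.log (D.factorial : ℝ) + 2 * (D : ℝ) ^ 2 * Real.log (2 * D : ℝ) +
    D * Real.log (2 * D : ℝ) + ((D : ℝ) ^ 3 + D) * Real.log 4 with hC0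
  have hC0nn : 0 ≤ C0 := by rw [hC0]; positivity
  refine ⟨C0 / Real.log 2 + 4 * (D : ℝ) ^ 3, by positivity, ?_⟩
  intro g hm hi hd H hH hr Y hY
  subst hd
  set D := g.natDegree with hD
  have hY0 : 0 < Y := by linarith
  have hlogH : Real.log 2 ≤ Real.log H := Real.log_le_log (by norm_num) hH
  -- the constant `K`
  set G : ℕ := ⌈H ^ D * 2 ^ D⌉₊ with hG
  have hG1 : 1 ≤ G := Nat.one_le_ceil_iff.2 (by positivity)
  have hcoef : ∀ i, |g.coeff i| ≤ (G : ℤ) := by
    intro i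
    have h1 := coeff_le g hm H hH hr i
    have h2 : (|g.coeff i| : ℝ) ≤ G := h1.trans (Nat.le_ceil _)
    exact_mod_cast h2
  set K : ℕ := D * G with hK
  have hK1 : 1 ≤ K := Nat.mul_pos hDpos hG1
  have hx : ∀ v A, Bd (AdjoinRoot.powerBasisAux' hm) v A →
      Bd (AdjoinRoot.powerBasisAux' hm) (AdjoinRoot.root g * v) ((K : ℤ) * A) := by
    intro v A hv
    have := mul_x_bd g hm (G : ℤ) (by exact_mod_cast hG1) hcoef v A hv
    rw [hK]
    push_cast
    exact this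
  have hKle : (K : ℝ) ≤ 2 * D * (2 * H) ^ D := by
    have h1 : (G : ℝ) ≤ H ^ D * 2 ^ D + 1 := (Nat.ceil_lt_add_one (by positivity)).le
    have h2 : (1 : ℝ) ≤ H ^ D * 2 ^ D := by
      have a1 : (1 : ℝ) ≤ H ^ D := one_le_pow₀ (by linarith)
      have a2 : (1 : ℝ) ≤ 2 ^ D := one_le_pow₀ (by norm_num)
      nlinarith
    rw [hK, mul_pow]
    push_cast
    calc (D : ℝ) * G ≤ D * (2 * (H ^ D * 2 ^ D)) :=
          mul_le_mul_of_nonneg_left (by linarith) hDr.le
      _ = 2 * D * (2 ^ D * H ^ D) := by ring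
  have hKpos : (0 : ℝ) < K := by exact_mod_cast hK1
  have hK1r : (1 : ℝ) ≤ K := by exact_mod_cast hK1
  have hlogK0 : 0 ≤ Real.log K := Real.log_nonneg hK1r
  have hlogK : Real.log K ≤ Real.log (2 * D : ℝ) + 2 * D * Real.log H := by
    have h1 := Real.log_le_log hKpos hKle
    rw [Real.log_mul (by positivity) (by positivity), Real.log_pow,
      Real.log_mul (x := 2) (y := H) (by norm_num) (by positivity)] at h1
    have h2 : (D : ℝ) * (Real.log 2 + Real.log H) ≤ 2 * D * Real.log H := by nlinarith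
    linarith
  -- the size `X` of the box
  set s : ℝ := 1 / (D : ℝ) with hs
  have hs0 : 0 < s := by positivity
  have hs1 : s ≤ 1 := by rw [hs, div_le_one hDr]; exact hD1
  have hYs1 : 1 ≤ Y ^ s := Real.one_le_rpow hY hs0.le
  set X : ℕ := ⌈(D : ℝ) * (K : ℝ) ^ D * Y ^ s⌉₊ with hX
  have hXge : (D : ℝ) * (K : ℝ) ^ D * Y ^ s ≤ X := Nat.le_ceil _
  have hKD1 : (1 : ℝ) ≤ (K : ℝ) ^ D := one_le_pow₀ hK1r
  have hbase : (1 : ℝ) ≤ (D : ℝ) * (K : ℝ) ^ D * Y ^ s := by
    have : (1 : ℝ) ≤ (D : ℝ) * (K : ℝ) ^ D := by nlinarith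
    nlinarith
  have hXle : (X : ℝ) ≤ 2 * D * (K : ℝ) ^ D * Y ^ s := by
    have h1 : (X : ℝ) ≤ (D : ℝ) * (K : ℝ) ^ D * Y ^ s + 1 :=
      (Nat.ceil_lt_add_one (by positivity)).le
    linarith
  have hX1 : (1 : ℝ) ≤ X := hbase.trans hXge
  have hYsD : (Y ^ s) ^ D = Y := by
    rw [← Real.rpow_natCast, ← Real.rpow_mul hY0.le, hs, one_div, inv_mul_cancel₀ hDr.ne',
      Real.rpow_one]
  have hYX : Y ≤ (X : ℝ) ^ D := by
    have h1 : Y ^ s ≤ X := by
      refine le_trans ?_ hXge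
      have : (1 : ℝ) ≤ (D : ℝ) * (K : ℝ) ^ D := by nlinarith
      nlinarith
    calc Y = (Y ^ s) ^ D := hYsD.symm
      _ ≤ (X : ℝ) ^ D := pow_le_pow_left₀ (by positivity) h1 D
  -- the logarithm of the bound for the norms
  set B : ℝ := Real.log ((D.factorial : ℝ) * ((K : ℝ) ^ D * X) ^ D) with hB
  have hBeq : B = Real.log (D.factorial : ℝ) + D * (D * Real.log K + Real.log X) := by
    rw [hB, Real.log_mul (by positivity) (by positivity), Real.log_pow, Real.log_mul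
      (by positivity) (by positivity), Real.log_pow]
  have hlogX0 : 0 ≤ Real.log X := Real.log_nonneg hX1
  have hB0 : 0 ≤ B := by rw [hBeq]; positivity
  have hlogX : D * Real.log X ≤ D * Real.log (2 * D : ℝ) + (D : ℝ) ^ 2 * Real.log K +
      Real.log Y := by
    have h1 := Real.log_le_log (by linarith) hXle
    rw [Real.log_mul (x := 2 * (D : ℝ) * (K : ℝ) ^ D) (y := Y ^ s) (by positivity) (by positivity),
      Real.log_mul (x := 2 * (D : ℝ)) (y := (K : ℝ) ^ D) (by positivity)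
      (by positivity), Real.log_pow, Real.log_rpow hY0] at h1
    have h2 := mul_le_mul_of_nonneg_left h1 hDr.le
    have h3 : (D : ℝ) * (Real.log (2 * D) + D * Real.log K + s * Real.log Y) =
      D * Real.log (2 * D : ℝ) + (D : ℝ) ^ 2 * Real.log K + Real.log Y := by
      have : (D : ℝ) * s = 1 := by rw [hs]; field_simp
      calc _ = D * Real.log (2 * D : ℝ) + (D : ℝ) ^ 2 * Real.log K + (D * s) * Real.log Y := by
            ring
        _ = _ := by rw [this, one_mul]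
    linarith
  have hBle : B ≤ Real.log (D.factorial : ℝ) + 2 * (D : ℝ) ^ 2 * Real.log K +
      D * Real.log (2 * D : ℝ) + Real.log Y := by
    rw [hBeq]
    have : (D : ℝ) * (D * Real.log K + Real.log X) = (D : ℝ) ^ 2 * Real.log K + D * Real.log X := by
      ring
    linarith
  -- the double count
  have hdc := double_count g hm hi K hK1 hx X Y hB0
  set n : ℝ := ((Box D X).card : ℝ) with hn
  have hnX : n = (2 * (X : ℝ) + 1) ^ D := by
    rw [hn, card_Box]
    push_cast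
    ring
  have hnY : Y ≤ n := by
    rw [hnX]
    refine hYX.trans (pow_le_pow_left₀ (by linarith) (by linarith) D)
  have hn0 : 0 < n := by linarith
  -- lower bound for the left side
  have hlow : ∀ q ∈ Pairs g Y, n * (Real.log (q.1 : ℝ) / q.1) -
      n * (D / Y ^ s) * (Real.log (q.1 : ℝ) * (q.1 : ℝ) ^ (s - 1)) - Real.log (q.1 : ℝ) ≤
      Real.log (q.1 : ℝ) *
      ((((Box D X).filter fun a => (q.1 : ℤ) ∣ val a q.2).card : ℝ) - 1) := by
    intro q hq
    obtain ⟨h3, h4⟩ := Finset.mem_sigma.1 hq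
    obtain ⟨h5, h6⟩ := Finset.mem_filter.1 h4
    obtain ⟨h7, h8⟩ := Finset.mem_filter.1 h3
    have hqY : (q.1 : ℝ) ≤ Y := by
      have := Finset.mem_range.1 h7
      exact (Nat.le_floor_iff hY0.le).1 (by omega)
    have h1 := one_pair g hm hi K hK1 hx hDpos q.1 q.2 h8 h6 X Y hqY hXge
    have h2 : 0 ≤ Real.log (q.1 : ℝ) := Real.log_natCast_nonneg _
    have h9 := mul_le_mul_of_nonneg_left h1 h2
    have e : Real.log (q.1 : ℝ) * (n * (1 / (q.1 : ℝ) - D *
      ((q.1 : ℝ) ^ (s - 1) / Y ^ s))) = n * (Real.log (q.1 : ℝ) / q.1) -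
      n * (D / Y ^ s) * (Real.log (q.1 : ℝ) * (q.1 : ℝ) ^ (s - 1)) := by
      ring
    linarith
  have hsum := (Finset.sum_le_sum hlow).trans hdc
  rw [Finset.sum_sub_distrib, Finset.sum_sub_distrib, ← Finset.mul_sum, ← Finset.mul_sum,
    sum_pairs g Y (fun p => Real.log (p : ℝ) / p),
    sum_pairs g Y (fun p => Real.log (p : ℝ) * (p : ℝ) ^ (s - 1)),
    sum_pairs g Y (fun p => Real.log (p : ℝ))] at hsum
  have hrho : ∀ p ∈ primesLE Y, (rho g p : ℝ) ≤ D := by
    intro p hp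
    exact_mod_cast rho_le g hm p (Finset.mem_filter.1 hp).2
  have hE1 : ∑ p ∈ primesLE Y, (rho g p : ℝ) * Real.log (p : ℝ) ≤ D * (Real.log 4 * Y) := by
    calc ∑ p ∈ primesLE Y, (rho g p : ℝ) * Real.log (p : ℝ)
        ≤ ∑ p ∈ primesLE Y, (D : ℝ) * Real.log (p : ℝ) :=
          Finset.sum_le_sum fun p hp =>
            mul_le_mul_of_nonneg_right (hrho p hp) (Real.log_natCast_nonneg _)
      _ = D * ∑ p ∈ primesLE Y, Real.log (p : ℝ) := by rw [Finset.mul_sum]
      _ ≤ _ := mul_le_mul_of_nonneg_left (prime_sum_one Y hY0.le) hDr.le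
  have hE2 : ∑ p ∈ primesLE Y, (rho g p : ℝ) * (Real.log (p : ℝ) * (p : ℝ) ^ (s - 1)) ≤
      D * (D * Real.log 4 * Y ^ s) := by
    calc ∑ p ∈ primesLE Y, (rho g p : ℝ) * (Real.log (p : ℝ) * (p : ℝ) ^ (s - 1))
        ≤ ∑ p ∈ primesLE Y, (D : ℝ) * (Real.log (p : ℝ) * (p : ℝ) ^ (s - 1)) :=
          Finset.sum_le_sum fun p hp =>
            mul_le_mul_of_nonneg_right (hrho p hp) (mul_nonneg (Real.log_natCast_nonneg _)
              (Real.rpow_nonneg (Nat.cast_nonneg _) _))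
      _ = D * ∑ p ∈ primesLE Y, Real.log (p : ℝ) * (p : ℝ) ^ (s - 1) := by rw [Finset.mul_sum]
      _ ≤ D * (Real.log 4 / s * Y ^ s) :=
          mul_le_mul_of_nonneg_left (prime_sum_two s hs0 hs1 Y hY) hDr.le
      _ = D * (D * Real.log 4 * Y ^ s) := by
          rw [hs]
          field_simp
  have hgoal : ∑ p ∈ primesLE Y, (rho g p : ℝ) * Real.log p / p =
      ∑ p ∈ primesLE Y, (rho g p : ℝ) * (Real.log (p : ℝ) / p) :=
    Finset.sum_congr rfl fun p _ => by ring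
  rw [hgoal]
  set S : ℝ := ∑ p ∈ primesLE Y, (rho g p : ℝ) * (Real.log (p : ℝ) / p) with hS
  have hE2' : n * (D / Y ^ s) *
      ∑ p ∈ primesLE Y, (rho g p : ℝ) * (Real.log (p : ℝ) * (p : ℝ) ^ (s - 1)) ≤
      n * ((D : ℝ) ^ 3 * Real.log 4) := by
    have hYs0 : 0 < Y ^ s := by linarith
    calc _ ≤ n * (D / Y ^ s) * (D * (D * Real.log 4 * Y ^ s)) :=
          mul_le_mul_of_nonneg_left hE2 (by positivity)
      _ = n * ((D : ℝ) ^ 3 * Real.log 4) := by
          field_simp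
  have hE1' : ∑ p ∈ primesLE Y, (rho g p : ℝ) * Real.log (p : ℝ) ≤ n * (D * Real.log 4) := by
    refine hE1.trans ?_
    have : D * (Real.log 4 * Y) = Y * (D * Real.log 4) := by ring
    rw [this]
    exact mul_le_mul_of_nonneg_right hnY (by positivity)
  have hS1 : n * S ≤ n * (B + (D : ℝ) ^ 3 * Real.log 4 + D * Real.log 4) := by
    have : n * (B + (D : ℝ) ^ 3 * Real.log 4 + D * Real.log 4) =
      n * B + n * ((D : ℝ) ^ 3 * Real.log 4) + n * (D * Real.log 4) := by ring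
    rw [this]
    linarith
  have hS2 := le_of_mul_le_mul_left hS1 hn0
  have hS3 : S ≤ Real.log Y + C0 + 4 * (D : ℝ) ^ 3 * Real.log H := by
    have h1 : 2 * (D : ℝ) ^ 2 * Real.log K ≤ 2 * (D : ℝ) ^ 2 * Real.log (2 * D : ℝ) +
        4 * (D : ℝ) ^ 3 * Real.log H := by
      have := mul_le_mul_of_nonneg_left hlogK (by positivity : (0 : ℝ) ≤ 2 * (D : ℝ) ^ 2)
      nlinarith
    rw [hC0]
    nlinarith
  refine hS3.trans ?_
  have h1 : C0 ≤ C0 / Real.log 2 * Real.log H := by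
    rw [div_mul_eq_mul_div, le_div_iff₀ hlog2]
    exact mul_le_mul_of_nonneg_left hlogH hC0nn
  rw [add_mul]
  linarith

end Pool.Agent.Helper72.EP
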