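import Mathlib

/-!
# EP, module OSM: the norm of an element killed by many residue maps
-/

set_option autoImplicit false

namespace Pool.Agent.Helper72.EP

open Module

variable {R : Type*} [CommRing R] [IsDomain R] [Module.Free ℤ R] [Module.Finite ℤ R]

theorem norm_eq_card (v : R) (hv : v ≠ 0) :
    (Algebra.norm ℤ v).natAbs = Nat.card (R ⧸ Ideal.span {v}) := by
  classical
  rw [Algebra.norm_apply]
  let b := Module.Free.chooseBasis ℤ R
  have key := Submodule.natAbs_det_equiv ((Ideal.span ({v} : Set R)).restrictScalars ℤ)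
    (b.equiv (Ideal.basisSpanSingleton b hv) (Equiv.refl _))
  refine Eq.trans ?_ key
  congr
  refine b.ext fun i => ?_
  have h1 : ((Ideal.basisSpanSingleton b hv) i : R) = v * b i :=
    Ideal.basisSpanSingleton_apply b hv i
  have h2 : (b.equiv (Ideal.basisSpanSingleton b hv) (Equiv.refl _)) (b i) =
      (Ideal.basisSpanSingleton b hv) i := by
    rw [Basis.equiv_apply]
    rfl
  change v * b i = ((b.equiv (Ideal.basisSpanSingleton b hv) (Equiv.refl _)) (b i) : R)
  rw [h2, h1]

theorem prod_dvd_norm {ι : Type*} [Finite ι] [Fintype ι] (p : ι → ℕ) (hp : ∀ i, (p i).Prime)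
    (φ : ∀ i, R →+* ZMod (p i))
    (hker : ∀ i j, i ≠ j → RingHom.ker (φ i) ≠ RingHom.ker (φ j)) (v : R) (hv : v ≠ 0)
    (h : ∀ i, φ i v = 0) : (∏ i, p i) ∣ (Algebra.norm ℤ v).natAbs := by
  classical
  rw [norm_eq_card v hv]
  have hmax : ∀ i, (RingHom.ker (φ i)).IsMaximal := by
    intro i
    haveI := Fact.mk (hp i)
    exact RingHom.ker_isMaximal_of_surjective (φ i) (ZMod.ringHom_surjective (φ i))
  have hcop : Pairwise fun i j => IsCoprime (RingHom.ker (φ i)) (RingHom.ker (φ j)) := by
    intro i j hij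
    haveI := hmax i
    haveI := hmax j
    exact Ideal.isCoprime_of_isMaximal (hker i j hij)
  have hsurj : Function.Surjective (RingHom.pi φ) := by
    intro y
    choose x hx using fun i => (ZMod.ringHom_surjective (φ i)) (y i)
    obtain ⟨z, hz⟩ := Ideal.exists_forall_sub_mem_ideal hcop x
    refine ⟨z, ?_⟩
    funext i
    have := hz i
    rw [RingHom.mem_ker, map_sub, sub_eq_zero] at this
    simp [this, hx i]
  have hmem : ∀ a ∈ Ideal.span ({v} : Set R), (RingHom.pi φ) a = 0 := by
    intro a ha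
    obtain ⟨c, rfl⟩ := Ideal.mem_span_singleton'.mp ha
    funext i
    have e : (RingHom.pi φ) (c * v) i = φ i (c * v) := rfl
    rw [e, map_mul, h i, mul_zero]
    rfl
  let ψ : (R ⧸ Ideal.span ({v} : Set R)) →+* (∀ i, ZMod (p i)) :=
    Ideal.Quotient.lift _ (RingHom.pi φ) hmem
  have hψ : Function.Surjective ψ := Ideal.Quotient.lift_surjective_of_surjective _ hmem hsurj
  have hd := AddSubgroup.card_dvd_of_surjective ψ.toAddMonoidHom hψ
  have hc : Nat.card (∀ i, ZMod (p i)) = ∏ i, p i := by
    rw [Nat.card_pi]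
    simp
  rwa [hc] at hd

end Pool.Agent.Helper72.EP
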